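import Pool.Agent.Work.MP_2738db_nt_Z.Interface

/-!
Theorem X for the Fermat-Catalan conjecture (MP_2738db): all bases and exponents up to `X`, intervals
and progressions of almost polylogarithmic length.  Statements of the blocks; proofs: `BLUEPRINT.md`.
-/

set_option autoImplicit false

namespace Pool.Agent.Work.MP_2738db_nt_X

open Finset
open Pool.Agent.Work.MP_2738db_nt_U (PY LM)
open Pool.Agent.Work.MP_2738db_nt_Z (PR DQ KZ)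

/-- **SUX**: primes `1` modulo `d` up to `d ^ C` (Linnik), upper and lower bounds of the right order,
for all `d`, including the multiples of the exceptional modulus `e` (where the order is `f` times the
usual one). -/
def Stmt_Sux : Prop :=
  ∃ κ c C : ℝ, 0 < κ ∧ κ ≤ 1 / 100 ∧ 0 < c ∧ c ≤ 1 ∧ 1 ≤ C ∧ ∃ T : ℝ, ∀ t : ℝ, T ≤ t →
    ∃ (e : ℕ) (f : ℝ), 1 ≤ e ∧ 0 < f ∧ f ≤ 1 ∧ c / e ≤ f ∧
      ∀ d : ℕ, 1 ≤ d → (d : ℝ) ≤ Real.exp (κ * t) →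
        (¬ e ∣ d → c * (Real.exp t / (d.totient * t)) ≤ ((PR t d).card : ℝ) ∧
          ((PR t d).card : ℝ) ≤ C * (Real.exp t / (d.totient * t))) ∧
        (e ∣ d → c * (f * (Real.exp t / (d.totient * t))) ≤ ((PR t d).card : ℝ) ∧
          ((PR t d).card : ℝ) ≤ C * (f * (Real.exp t / (d.totient * t))))

/-- **SMQ**: smooth numbers are rare (with weight `1 / φ`). -/
def Stmt_Smq : Prop :=
  ∀ η κ : ℝ, 0 < η → η < 1 → 0 < κ → ∃ T : ℝ, ∀ t : ℝ, T ≤ t → ∀ F : Finset ℕ,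
    (∀ s ∈ F, 0 < s ∧ Real.exp (κ * t) ≤ s ∧
      ∀ p : ℕ, p.Prime → p ∣ s → (p : ℝ) ≤ Real.exp (2 * t ^ (1 - η))) →
    ∑ s ∈ F, 1 / (s.totient : ℝ) ≤ Real.exp (-(t ^ (η / 2)))

/-- **DPQ**: for every prime `l ≤ exp (t ^ (1 - η))` a set `D` of divisors of the product of the primes
in `(y, 2y]`, in one dyadic interval, such that for every `k` with few prime factors there is a `k₀`,
almost prime to `k`, with very many sieving primes `1 + 2 l d k₀`. -/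
def Stmt_Dpq : Prop :=
  ∀ η : ℝ, 0 < η → η < 1 → ∃ γ : ℝ, 0 < γ ∧ ∃ T : ℝ, ∀ t y : ℝ, T ≤ t →
    t ^ (1 + η) ≤ y → y ≤ t ^ 3 → ∀ l : ℕ, l.Prime → Real.log l ≤ t ^ (1 - η) →
      ∃ (D : Finset ℕ) (D₀ : ℝ), 1 ≤ D₀ ∧ D₀ ≤ Real.exp (t / 40) ∧
        (∀ d ∈ D, D₀ ≤ d ∧ (d : ℝ) ≤ 2 * D₀ ∧ d ∣ ∏ r ∈ PY y, r) ∧
        ∀ k : ℕ, 1 ≤ k → (k.primeFactors.card : ℝ) ≤ Real.exp (t ^ (1 - η)) →
          ∃ k₀ : ℕ, 1 ≤ k₀ ∧ (k₀ : ℝ) ≤ KZ t D₀ l ∧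
            (Nat.gcd k k₀ : ℝ) ≤ (KZ t D₀ l) ^ (3 / 10 : ℝ) ∧
            (KZ t D₀ l) ^ (9 / 10 : ℝ) ≤ (k₀ : ℝ) ∧
            Real.exp (γ * t) ≤ ((DQ t l k₀ D).card : ℝ)

/-- **TWA**: powers of `2` dividing `c ^ k ± b ^ n`. -/
def Stmt_Twa : Prop :=
  ∃ C : ℝ, 1 ≤ C ∧ ∀ (b c n k v : ℕ) (U lam : ℝ), 2 ≤ b → 2 ≤ c → ¬ 2 ∣ b → ¬ 2 ∣ c →
    Nat.Coprime b c → 1 ≤ n → 1 ≤ k → 1 ≤ U → Real.log b ≤ U → Real.log c ≤ U → 1 ≤ lam →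
    Real.log n ≤ lam → Real.log k ≤ lam →
    ((2 : ℤ) ^ v ∣ (c : ℤ) ^ k - (b : ℤ) ^ n ∨ (2 : ℤ) ^ v ∣ (c : ℤ) ^ k + (b : ℤ) ^ n) →
    (v : ℝ) ≤ C * U ^ 2 * (1 + lam) ^ 2

/-- **Theorem X** -/
def Stmt_X : Prop :=
  ∀ ε : ℝ, 0 < ε → ∃ κ X₀ : ℝ, 0 < κ ∧ ∀ X N b g r : ℕ, X₀ ≤ X →
    Real.exp (Real.log (Real.log X) ^ (1 + ε)) ≤ N → 2 ≤ b → b ≤ X → 1 ≤ g → g * N + r ≤ X →
    ({x : ℕ | 1 ≤ x ∧ x ≤ N ∧ Nat.Coprime b (g * x + r) ∧ ∃ a m n k : ℕ, 1 ≤ a ∧ 2 ≤ m ∧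
        1 ≤ n ∧ n ≤ X ∧ 1 ≤ k ∧ k ≤ X ∧
        (a ^ m + b ^ n = (g * x + r) ^ k ∨ b ^ n + (g * x + r) ^ k = a ^ m ∨
          (g * x + r) ^ k + a ^ m = b ^ n)}.ncard : ℝ) ≤ (N : ℝ) ^ (1 - κ)

end Pool.Agent.Work.MP_2738db_nt_X
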